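import Mathlib

/-!
# Points of odd degree on torsors: group theory
-/

set_option autoImplicit false
set_option linter.unusedSectionVars false

open scoped Classical

namespace Pool.Agent.H76.BKT

section one
variable {G A X : Type} [Group G] [AddCommGroup A] [AddTorsor A X] [MulAction G X]
  {α : G → A →+ A} (hα : ∀ (σ : G) (y x : X), α σ (y -ᵥ x) = σ • y -ᵥ σ • x)
include hα

/-- the degree of a point kills the class of the torsor -/
lemma degree_kills (x : X) [hf : (MulAction.stabilizer G x).FiniteIndex] :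
    ∃ b : A, ∀ σ : G, (MulAction.stabilizer G x).index • (σ • x -ᵥ x) = b - α σ b := by
  have : Finite (G ⧸ MulAction.stabilizer G x) := Subgroup.finite_quotient_of_finiteIndex
  let _ : Fintype (G ⧸ MulAction.stabilizer G x) := Fintype.ofFinite _
  let f : G ⧸ MulAction.stabilizer G x → A := fun q => MulAction.ofQuotientStabilizer G x q -ᵥ x
  refine ⟨∑ q, f q, fun σ => ?_⟩
  have h1 : ∀ q, α σ (f q) = f (σ • q) - (σ • x -ᵥ x) := by
    intro q
    show α σ (MulAction.ofQuotientStabilizer G x q -ᵥ x) =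
      (MulAction.ofQuotientStabilizer G x (σ • q) -ᵥ x) - (σ • x -ᵥ x)
    rw [hα, MulAction.ofQuotientStabilizer_smul, vsub_sub_vsub_cancel_right]
  have h2 : ∑ q, f (σ • q) = ∑ q, f q :=
    Fintype.sum_equiv (MulAction.toPerm σ) _ _ fun q => rfl
  rw [map_sum]
  simp only [h1]
  rw [Finset.sum_sub_distrib, h2, Finset.sum_const, Finset.card_univ, sub_sub_cancel,
    ← Nat.card_eq_fintype_card]
  rfl

/-- the torsor has a rational point if its class is a coboundary -/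
lemma fixed_of_cob {x : X} {b : A} {σ : G} (h : σ • x -ᵥ x = b - α σ b) :
    σ • (b +ᵥ x) = b +ᵥ x := by
  have h1 : α σ ((b +ᵥ x) -ᵥ x) = σ • (b +ᵥ x) -ᵥ σ • x := hα σ _ _
  rw [vadd_vsub] at h1
  have h2 : σ • (b +ᵥ x) = α σ b +ᵥ σ • x := by rw [h1, vsub_vadd]
  have h3 : σ • x = (b - α σ b) +ᵥ x := by rw [← h, vsub_vadd]
  rw [h2, h3, vadd_vadd]
  congr 1
  abel

/-- cancellation of powers of two -/
lemma two_cancel (x : X)
    (hS : ∀ n : ℕ, (∃ b, ∀ σ : G, 2 • (n • (σ • x -ᵥ x)) = b - α σ b) →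
      ∃ b, ∀ σ : G, n • (σ • x -ᵥ x) = b - α σ b) (a n : ℕ)
    (h : ∃ b, ∀ σ : G, (2 ^ a * n) • (σ • x -ᵥ x) = b - α σ b) :
    ∃ b, ∀ σ : G, n • (σ • x -ᵥ x) = b - α σ b := by
  induction a with
  | zero => simpa using h
  | succ a ih =>
    apply ih
    apply hS
    obtain ⟨b, hb⟩ := h
    refine ⟨b, fun σ => ?_⟩
    rw [← hb, smul_smul, pow_succ']
    congr 1
    ring

end one

section two
variable {G A X : Type} [Group G] [AddCommGroup A] [AddTorsor A X] [MulAction G X]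
  {α : G → A →+ A} (hα : ∀ (σ : G) (y x : X), α σ (y -ᵥ x) = σ • y -ᵥ σ • x)
  (hfi : ∀ x : X, (MulAction.stabilizer G x).FiniteIndex)
include hα hfi

/-- **A point of 2-power degree.** -/
theorem two_power (x : X)
    (hS : ∀ n : ℕ, (∃ b, ∀ σ : G, 2 • (n • (σ • x -ᵥ x)) = b - α σ b) →
      ∃ b, ∀ σ : G, n • (σ • x -ᵥ x) = b - α σ b) {a : ℕ}
    (ha : (MulAction.stabilizer G x).index = 2 ^ a) : ∃ y : X, ∀ σ : G, σ • y = y := by
  have := hfi x
  obtain ⟨b, hb⟩ := degree_kills hα x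
  obtain ⟨b', hb'⟩ := two_cancel hα x hS a 1 ⟨b, fun σ => by rw [mul_one, ← ha, hb]⟩
  refine ⟨b' +ᵥ x, fun σ => fixed_of_cob hα ?_⟩
  rw [← hb', one_smul]

/-- **A point of odd degree.** -/
theorem odd_degree (x : X)
    (hS : ∀ n : ℕ, (∃ b, ∀ σ : G, 2 • (n • (σ • x -ᵥ x)) = b - α σ b) →
      ∃ b, ∀ σ : G, n • (σ • x -ᵥ x) = b - α σ b) :
    ∃ y : X, Odd (MulAction.stabilizer G y).index := by
  have hfx := hfi x
  obtain ⟨b, hb⟩ := degree_kills hα x
  have hN0 : (MulAction.stabilizer G x).index ≠ 0 := Subgroup.FiniteIndex.index_ne_zero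
  obtain ⟨a, n, hn, hN⟩ := Nat.exists_eq_two_pow_mul_odd hN0
  obtain ⟨b1, hb1⟩ := two_cancel hα x hS a n ⟨b, fun σ => by rw [← hN, hb]⟩
  -- the Sylow subgroup
  let U : Subgroup G := (MulAction.stabilizer G x).normalCore
  have hU : U.FiniteIndex := inferInstance
  have hfin : Finite (G ⧸ U) := Subgroup.finite_quotient_of_finiteIndex
  have : Fact (Nat.Prime 2) := ⟨Nat.prime_two⟩
  obtain ⟨P⟩ : Nonempty (Sylow 2 (G ⧸ U)) := inferInstance
  let Q : Subgroup G := (P : Subgroup (G ⧸ U)).comap (QuotientGroup.mk' U)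
  have hQ : Q.index = (P : Subgroup (G ⧸ U)).index :=
    Subgroup.index_comap_of_surjective _ (QuotientGroup.mk'_surjective U)
  have hodd : Odd Q.index := by
    rw [hQ]
    exact Nat.not_even_iff_odd.1 fun h => P.not_dvd_index h.two_dvd
  -- the orbit of `x` under `Q`
  let _ : MulAction Q X := inferInstance
  have hUQ : U ≤ Q := by
    intro g hg
    show QuotientGroup.mk' U g ∈ (P : Subgroup (G ⧸ U))
    have : QuotientGroup.mk' U g = 1 := (QuotientGroup.eq_one_iff g).2 hg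
    rw [this]
    exact one_mem _
  have hstab : MulAction.stabilizer Q x = (MulAction.stabilizer G x).subgroupOf Q := by
    ext g
    rfl
  have hUs : U ≤ MulAction.stabilizer G x := Subgroup.normalCore_le _
  have hi1 : (U.subgroupOf Q).index = Nat.card (P : Subgroup (G ⧸ U)) := by
    have e1 : (U.subgroupOf Q).index * Q.index = U.index := Subgroup.relIndex_mul_index hUQ
    have e2 : Nat.card (P : Subgroup (G ⧸ U)) * (P : Subgroup (G ⧸ U)).index = Nat.card (G ⧸ U) :=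
      Subgroup.card_mul_index _
    have e3 : 0 < (P : Subgroup (G ⧸ U)).index := by
      rw [← hQ]
      exact hodd.pos
    rw [hQ] at e1
    exact Nat.eq_of_mul_eq_mul_right e3 (e1.trans e2.symm)
  have hi2 : (MulAction.stabilizer Q x).index ∣ Nat.card (P : Subgroup (G ⧸ U)) := by
    rw [← hi1, hstab]
    exact Subgroup.index_dvd_of_le (Subgroup.comap_mono hUs)
  obtain ⟨r, hr⟩ := (IsPGroup.iff_card.1 P.isPGroup')
  rw [hr] at hi2
  obtain ⟨k, -, hk⟩ := (Nat.dvd_prime_pow Nat.prime_two).1 hi2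
  have hfQ : (MulAction.stabilizer Q x).FiniteIndex := ⟨by rw [hk]; positivity⟩
  obtain ⟨b2, hb2⟩ := degree_kills (G := Q) (α := fun σ => α σ) (fun σ y x => hα σ y x) x
  rw [hk] at hb2
  -- the combination
  have hcop : Nat.Coprime n (2 ^ k) := (Nat.Coprime.pow_right k (Nat.coprime_two_right.2 hn))
  obtain ⟨u, w, huw⟩ : ∃ u w : ℤ, (n : ℤ) * u + ((2 ^ k : ℕ) : ℤ) * w = 1 := by
    have h1 := Nat.gcd_eq_gcd_ab n (2 ^ k)
    rw [hcop.gcd_eq_one] at h1
    exact ⟨_, _, h1.symm⟩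
  have hfix : ∀ σ ∈ Q, σ • ((u • b1 + w • b2) +ᵥ x) = (u • b1 + w • b2) +ᵥ x := by
    intro σ hσ
    apply fixed_of_cob hα
    have h1 := hb1 σ
    have h2 : (2 ^ k : ℕ) • (σ • x -ᵥ x) = b2 - α σ b2 := hb2 ⟨σ, hσ⟩
    have h3 : σ • x -ᵥ x = ((n : ℤ) * u + ((2 ^ k : ℕ) : ℤ) * w) • (σ • x -ᵥ x) := by
      rw [huw, one_smul]
    rw [h3, add_smul, mul_comm, mul_smul, mul_comm, mul_smul, natCast_zsmul, natCast_zsmul, h1, h2,
      map_add, map_zsmul, map_zsmul, smul_sub, smul_sub]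
    abel
  refine ⟨(u • b1 + w • b2) +ᵥ x, ?_⟩
  have hle : Q ≤ MulAction.stabilizer G ((u • b1 + w • b2) +ᵥ x) := fun σ hσ => hfix σ hσ
  exact Odd.of_dvd_nat hodd (Subgroup.index_dvd_of_le hle)

/-- **A zero-cycle of 2-power degree.** -/
theorem two_power_zc (x0 : X)
    (hS : ∀ n : ℕ, (∃ b, ∀ σ : G, 2 • (n • (σ • x0 -ᵥ x0)) = b - α σ b) →
      ∃ b, ∀ σ : G, n • (σ • x0 -ᵥ x0) = b - α σ b) {t : ℕ} (x : Fin t → X) (n : Fin t → ℤ) {a : ℕ}
    (ha : ∑ i, n i * ((MulAction.stabilizer G (x i)).index : ℤ) = 2 ^ a) :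
    ∃ y : X, ∀ σ : G, σ • y = y := by
  have h0 : ∀ i, ∃ b : A, ∀ σ : G,
      (MulAction.stabilizer G (x i)).index • (σ • x0 -ᵥ x0) = b - α σ b := by
    intro i
    have := hfi (x i)
    obtain ⟨b, hb⟩ := degree_kills hα (x i)
    refine ⟨b - (MulAction.stabilizer G (x i)).index • (x0 -ᵥ x i), fun σ => ?_⟩
    have h5 : σ • x0 -ᵥ x0 = α σ (x0 -ᵥ x i) - (x0 -ᵥ x i) + (σ • x i -ᵥ x i) := by
      have e1 : σ • x0 -ᵥ x0 = (σ • x0 -ᵥ σ • x i) + (σ • x i -ᵥ x i) + (x i -ᵥ x0) := by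
        rw [vsub_add_vsub_cancel, vsub_add_vsub_cancel]
      rw [e1, hα, ← neg_vsub_eq_vsub_rev x0 (x i)]
      abel
    rw [h5, smul_add, smul_sub, hb, map_sub, map_nsmul]
    abel
  choose b hb using h0
  obtain ⟨b', hb'⟩ := two_cancel hα x0 hS a 1 ⟨∑ i, n i • b i, fun σ => by
    have h1 : (2 ^ a * 1 : ℕ) • (σ • x0 -ᵥ x0) =
        (∑ i, n i * ((MulAction.stabilizer G (x i)).index : ℤ)) • (σ • x0 -ᵥ x0) := by
      rw [ha, mul_one, ← natCast_zsmul]
      congr 1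
    rw [h1, Finset.sum_smul, map_sum, ← Finset.sum_sub_distrib]
    refine Finset.sum_congr rfl fun i _ => ?_
    rw [mul_smul, natCast_zsmul, hb, map_zsmul, smul_sub]⟩
  refine ⟨b' +ᵥ x0, fun σ => fixed_of_cob hα ?_⟩
  rw [← hb', one_smul]

end two

end Pool.Agent.H76.BKT
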