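import Pool.Agent.K7.H70.ST.A
import Pool.Agent.Y667.BKP.Main

/-!
# Twisted Bloch–Kato Selmer groups of `y² + y = x³` at the prime two

`K ⊆ F` is a Galois extension of number fields and `R` is an integral representation of `Gal(F/K)`.
If the 2-Selmer group of `E` over `F` and the 2-torsion of `E(F)` vanish, then the Bloch–Kato Selmer
group over `K` of `V₂(E) ⊗ R` is zero.
-/

set_option autoImplicit false
set_option linter.unusedSectionVars false

open WeierstrassCurve IsDedekindDomain NumberField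
open scoped Classical

namespace Pool.Agent.H76.BKT

open Pool.Agent.Y696
open Pool.Agent.TH841.SH.D
open Pool.Agent.Y664.QA
open Pool.Agent.Y667.BKP
open Pool.Agent.K7.H70.ST

section defs
variable {K F : Type} [Field K] [Field F] [Algebra K F] {m : ℕ}

/-- the restriction of `σ` to `F` is `g` -/
def Res (j : F →ₐ[K] AlgebraicClosure K) (σ : Gal K) (g : F ≃ₐ[K] F) : Prop :=
  ∀ x, σ (j x) = j (g x)

/-- continuous cocycles with values in `V₂(E) ⊗ R` -/
structure TCoc (j : F →ₐ[K] AlgebraicClosure K) (R : (F ≃ₐ[K] F) →* Matrix (Fin m) (Fin m) ℤ)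
    (c : Gal K → Fin m → ℕ → Pt (E0 K) (AlgebraicClosure K)) : Prop where
  cont : ∀ i n, IsLocallyConstant fun σ => c σ i n
  tate : ∀ σ i, IsV 2 (E0 K) (c σ i)
  mul : ∀ σ τ g, Res j σ g → ∀ i n,
    c (σ * τ) i n = c σ i n + ∑ k, R g i k • act (E0 K) σ.toAlgHom (c τ k n)

/-- the local condition -/
def TKum (j : F →ₐ[K] AlgebraicClosure K) (R : (F ≃ₐ[K] F) →* Matrix (Fin m) (Fin m) ℤ)
    (Kv : Type) [Field Kv] [Algebra K Kv]
    (c : Gal K → Fin m → ℕ → Pt (E0 K) (AlgebraicClosure K)) : Prop :=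
  ∀ ι : AlgebraicClosure K →ₐ[K] AlgebraicClosure Kv,
    ∃ Q : Fin m → ℕ → Pt (E0 K) (AlgebraicClosure Kv), (∀ i n, 2 • Q i (n + 1) = Q i n) ∧
    ∀ (τ : Gal Kv) (σ : Gal K), (∀ x, τ (ι x) = ι (σ x)) → ∀ g, Res j σ g → ∀ i n,
      act (E0 K) ι (c σ i n) =
        ∑ k, R g i k • act (E0 K) (τ.toAlgHom.restrictScalars K) (Q k n) - Q i n

end defs

section pre
variable {K F : Type} [Field K] [NumberField K] [Field F] [NumberField F] [Algebra K F]

/-- an equivalence of the algebraic closures -/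
lemma exists_e (j : F →ₐ[K] AlgebraicClosure K) :
    ∃ e : AlgebraicClosure K ≃ₐ[K] AlgebraicClosure F,
      ∀ x, e (j x) = algebraMap F (AlgebraicClosure F) x := by
  let _ : Algebra F (AlgebraicClosure K) := j.toRingHom.toAlgebra
  have hst : IsScalarTower K F (AlgebraicClosure K) :=
    IsScalarTower.of_algebraMap_eq fun x => (j.commutes x).symm
  have halg : Algebra.IsAlgebraic F (AlgebraicClosure K) :=
    Algebra.IsAlgebraic.tower_top (K := K) F
  have hcl : IsAlgClosure F (AlgebraicClosure K) := ⟨inferInstance, halg⟩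
  let e : AlgebraicClosure K ≃ₐ[F] AlgebraicClosure F :=
    IsAlgClosure.equiv F (AlgebraicClosure K) (AlgebraicClosure F)
  exact ⟨e.restrictScalars K, fun x => e.commutes x⟩

omit [NumberField K] [Algebra K F] in
lemma sha2 (h : SelV F) (k : ℕ) (x : Pool.Agent.TH841.NF.D.Sha (E0 F))
    (hx : (2 ^ k : ℕ) • x = 0) : x = 0 := by
  induction k with
  | zero => rwa [pow_zero, one_nsmul] at hx
  | succ k ih =>
    apply ih
    apply h.sha
    rw [← two_nsmul, ← mul_nsmul, ← pow_succ]
    exact hx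

omit [NumberField K] [Algebra K F] in
lemma tor2 (hodd : Odd (Nat.card (E0 F).toAffine.Point)) (k : ℕ) (R : Pt (E0 F) F)
    (hx : (2 ^ k : ℕ) • R = 0) : R = 0 := by
  induction k with
  | zero => rwa [pow_zero, one_nsmul] at hx
  | succ k ih =>
    apply ih
    apply odd_two hodd
    rw [← two_nsmul, ← mul_nsmul, ← pow_succ]
    exact hx

/-- the local condition is empty at the complex places -/
lemma locKum_closed {c : Coch2 (E0 F)} (hc : c 1 = 0) (L : Type) [Field L] [Algebra F L]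
    [IsAlgClosed L] : LocKum 2 (E0 F) L c := by
  intro ι
  refine ⟨fun _ => 0, fun n => smul_zero _, fun τ σ h n => ?_⟩
  have hτ : ∀ x, τ x = x := by
    intro x
    obtain ⟨y, rfl⟩ := (IsAlgClosed.algebraMap_bijective_of_isIntegral (k := L)
      (K := AlgebraicClosure L)).2 x
    exact τ.commutes y
  have hσ : σ = 1 := by
    apply AlgEquiv.ext
    intro x
    have h2 : ι (σ x) = ι x := by rw [← h, hτ]
    exact ι.injective h2
  rw [hσ, hc]
  change act (E0 F) ι 0 = act (E0 F) _ 0 - 0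
  rw [map_zero, map_zero, sub_zero]

lemma closed_compl [IsTotallyComplex K] (v : InfinitePlace F) : IsAlgClosed v.Completion := by
  have hv : v.IsComplex := by
    rw [← InfinitePlace.not_isReal_iff_isComplex]
    intro h
    have h1 : (v.comap (algebraMap K F)).IsReal := h.comap _
    exact (InfinitePlace.not_isReal_iff_isComplex.2 (IsTotallyComplex.isComplex _)) h1
  exact IsAlgClosed.of_ringEquiv ℂ _ (InfinitePlace.Completion.ringEquivComplexOfIsComplex hv).symm

end pre

section main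
variable {K F : Type} [Field K] [NumberField K] [Field F] [NumberField F] [Algebra K F] {m : ℕ}
  {j : F →ₐ[K] AlgebraicClosure K} {R : (F ≃ₐ[K] F) →* Matrix (Fin m) (Fin m) ℤ}
  {c : Gal K → Fin m → ℕ → Pt (E0 K) (AlgebraicClosure K)}

lemma sum_one {A : Type} [AddCommGroup A] (i : Fin m) (x : Fin m → A) :
    ∑ k, (1 : Matrix (Fin m) (Fin m) ℤ) i k • x k = x i := by
  rw [Finset.sum_eq_single i]
  · rw [Matrix.one_apply_eq, one_smul]
  · intro k _ hk
    rw [Matrix.one_apply_ne hk.symm, zero_smul]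
  · intro h
    exact absurd (Finset.mem_univ i) h

/-- the points of 2-power order -/
def pt2 {k : Type} [Field k] (W : WeierstrassCurve k) : AddSubgroup (Pt W (AlgebraicClosure k)) where
  carrier := {x | ∃ M : ℕ, (2 ^ M : ℕ) • x = 0}
  zero_mem' := ⟨0, smul_zero _⟩
  add_mem' := by
    rintro x y ⟨a, ha⟩ ⟨b, hb⟩
    refine ⟨a + b, ?_⟩
    rw [smul_add, pow_add, mul_nsmul, ha, smul_zero, zero_add, mul_comm, mul_nsmul, hb, smul_zero]
  neg_mem' := by
    rintro x ⟨a, ha⟩
    exact ⟨a, by rw [smul_neg, ha, neg_zero]⟩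

lemma map_pt2 {k : Type} [Field k] {W : WeierstrassCurve k}
    (f : Pt W (AlgebraicClosure k) →+ Pt W (AlgebraicClosure k)) {x : Pt W (AlgebraicClosure k)}
    (h : ∃ M : ℕ, (2 ^ M : ℕ) • x = 0) : f x ∈ pt2 W := by
  obtain ⟨M, hM⟩ := h
  exact ⟨M, by rw [← map_nsmul, hM, map_zero]⟩

/-- the restriction of the local condition -/
lemma tkum_rst {e : AlgebraicClosure K ≃ₐ[K] AlgebraicClosure F}
    (hr : ∀ σ : Gal F, Res j (res e σ) 1) {Kv L : Type} [Field Kv] [Field L] [Algebra K Kv]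
    [Algebra K L] [Algebra Kv L] [IsScalarTower K Kv L] [Algebra F L] [IsScalarTower K F L]
    (h : TKum j R Kv c) (i : Fin m) :
    LocKum 2 (E0 F) L (fun σ n => tr K F (AlgebraicClosure F)
      (act (E0 K) (e : _ →ₐ[K] _) (c (res e σ) i n)) : Coch2 (E0 F)) := by
  intro ι
  let θ : AlgebraicClosure Kv →ₐ[Kv] AlgebraicClosure L := IsAlgClosed.lift
  let ι' : AlgebraicClosure K →ₐ[K] AlgebraicClosure L :=
    (ι.restrictScalars K).comp (e : _ →ₐ[K] _)
  obtain ⟨ι₀, hι₀⟩ := factor (θ.restrictScalars K) ι'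
  obtain ⟨Q, hQ1, hQ2⟩ := h ι₀
  refine ⟨fun n => tr K F (AlgebraicClosure L) (act (E0 K) (θ.restrictScalars K) (Q i n)),
    fun n => ?_, fun τ σ hτ n => ?_⟩
  · show 2 • tr K F (AlgebraicClosure L) (act (E0 K) (θ.restrictScalars K) (Q i (n + 1))) = _
    rw [← map_nsmul, ← map_nsmul, hQ1]
  · obtain ⟨t, ht⟩ := factor θ ((τ.toAlgHom.restrictScalars Kv).comp θ)
    let τ₀ : Gal Kv := AlgEquiv.ofBijective t (Algebra.IsAlgebraic.algHom_bijective t)
    have hτ₀ : ∀ y, θ (τ₀ y) = τ (θ y) := ht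
    have h1 := hQ2 τ₀ (res e σ) (fun x => by
      apply θ.injective
      change θ (τ₀ (ι₀ x)) = θ (ι₀ (res e σ x))
      rw [hτ₀]
      have e1 : θ (ι₀ x) = ι' x := hι₀ x
      have e2 : θ (ι₀ (res e σ x)) = ι' (res e σ x) := hι₀ _
      rw [e1, e2]
      change τ (ι (e x)) = ι (e (res e σ x))
      rw [res_apply, hτ]) 1 (hr σ) i n
    rw [map_one, sum_one] at h1
    have e3 : ι' = (θ.restrictScalars K).comp ι₀ := AlgHom.ext fun x => (hι₀ x).symm
    show act (E0 F) ι (tr K F (AlgebraicClosure F)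
      (act (E0 K) (e : _ →ₐ[K] _) (c (res e σ) i n))) = _
    rw [← tr_act (k := K) (K := F) (ι.restrictScalars K) ι (fun _ => rfl), act_act]
    change tr K F (AlgebraicClosure L) (act (E0 K) ι' (c (res e σ) i n)) = _
    rw [e3, ← act_act, h1, map_sub, map_sub, act_act]
    congr 1
    rw [← tr_act (k := K) (K := F) (τ.toAlgHom.restrictScalars K) (τ.toAlgHom.restrictScalars F)
      (fun _ => rfl), act_act]
    congr 2
    congr 1
    exact AlgHom.ext fun x => hτ₀ x

/-- **The twisted Selmer group is zero.** -/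
theorem tw_zero [IsGalois K F] [IsTotallyComplex K] (hF : SelV F) (hc : TCoc j R c)
    (hloc : ∀ v : HeightOneSpectrum (𝓞 K), TKum j R (v.adicCompletion K) c) :
    ∃ x : Fin m → ℕ → Pt (E0 K) (AlgebraicClosure K), (∀ i, IsV 2 (E0 K) (x i)) ∧
      ∀ σ g, Res j σ g → ∀ i n,
        c σ i n = ∑ k, R g i k • act (E0 K) σ.toAlgHom (x k n) - x i n := by
  obtain ⟨e, he⟩ := exists_e j
  have hr : ∀ σ : Gal F, Res j (res e σ) 1 := by
    intro σ x
    apply e.injective
    rw [res_apply, he, σ.commutes, AlgEquiv.one_apply, he]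
  -- the comparison of the points
  let T : Pt (E0 K) (AlgebraicClosure K) → Pt (E0 F) (AlgebraicClosure F) := fun P =>
    tr K F (AlgebraicClosure F) (act (E0 K) (e : _ →ₐ[K] _) P)
  have hTadd : ∀ P Q, T (P + Q) = T P + T Q := fun P Q => by
    show tr K F _ (act (E0 K) _ (P + Q)) = _
    rw [map_add, map_add]
  have hTn : ∀ (a : ℕ) P, T (a • P) = a • T P := fun a P => by
    show tr K F _ (act (E0 K) _ (a • P)) = _
    rw [map_nsmul, map_nsmul]
  have hT0 : T 0 = 0 := by
    show tr K F _ (act (E0 K) _ 0) = _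
    rw [map_zero, map_zero]
  have hTs : ∀ P Q, T (P - Q) = T P - T Q := fun P Q => by
    show tr K F _ (act (E0 K) _ (P - Q)) = _
    rw [map_sub, map_sub]
  have hTact : ∀ (σ : Gal F) P, T (act (E0 K) (res e σ).toAlgHom P) =
      act (E0 F) σ.toAlgHom (T P) := fun σ P => tr_act_res e σ P
  have inj : ∀ P, T P = 0 → P = 0 := by
    intro P hP
    apply act_inj (E0 K) (e : _ →ₐ[K] AlgebraicClosure F)
    apply (tr K F (AlgebraicClosure F)).injective
    rw [map_zero, map_zero]
    exact hP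
  have surj : ∀ P, ∃ P₀, T P₀ = P := by
    intro P
    refine ⟨act (E0 K) (e.symm : AlgebraicClosure F →ₐ[K] AlgebraicClosure K)
      ((tr K F (AlgebraicClosure F)).symm P), ?_⟩
    have e4 : ((e : AlgebraicClosure K →ₐ[K] AlgebraicClosure F)).comp
        (e.symm : AlgebraicClosure F →ₐ[K] AlgebraicClosure K) = AlgHom.id K _ :=
      AlgHom.ext fun x => e.apply_symm_apply x
    change tr K F (AlgebraicClosure F) (act (E0 K) (e : _ →ₐ[K] _)
      (act (E0 K) (e.symm : AlgebraicClosure F →ₐ[K] AlgebraicClosure K)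
        ((tr K F (AlgebraicClosure F)).symm P))) = P
    rw [act_act, e4, act_id, AddEquiv.apply_symm_apply]
  have c1 : ∀ i n, c 1 i n = 0 := by
    intro i n
    have h1 := hc.mul 1 1 1 (fun x => rfl) i n
    rw [map_one, sum_one, mul_one] at h1
    have h2 : act (E0 K) (1 : Gal K).toAlgHom (c 1 i n) = c 1 i n := act_id (E0 K) _
    rw [h2] at h1
    exact left_eq_add.1 h1
  -- the restricted cocycles
  let d : Fin m → Coch2 (E0 F) := fun i σ n => T (c (res e σ) i n)
  have hd1 : ∀ i, d i 1 = 0 := by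
    intro i
    funext n
    show T (c (res e 1) i n) = 0
    rw [res_one, c1, hT0]
  have hd : ∀ i, IsSelV 2 (E0 F) (d i) := by
    intro i
    refine ⟨⟨fun n => ?_, fun σ n => ⟨?_, ?_⟩, fun σ τ n => ?_⟩, fun w => ?_, fun w => ?_⟩
    · exact ((hc.cont i n).comp_continuous (res_cont e)).comp T
    · show 2 • T (c (res e σ) i (n + 1)) = T (c (res e σ) i n)
      rw [← hTn, (hc.tate (res e σ) i n).1]
    · obtain ⟨M, hM⟩ := (hc.tate (res e σ) i n).2
      refine ⟨M, ?_⟩
      show (2 ^ M : ℕ) • T (c (res e σ) i n) = 0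
      rw [← hTn, hM, hT0]
    · show T (c (res e (σ * τ)) i n) = T (c (res e σ) i n) +
        act (E0 F) σ.toAlgHom (T (c (res e τ) i n))
      rw [res_mul, hc.mul _ _ 1 (hr σ), map_one, sum_one, hTadd, hTact]
    · obtain ⟨v, φ, hφ⟩ := compl_tower K F w
      let : Algebra (v.adicCompletion K) (w.adicCompletion F) := φ.toAlgebra
      have : IsScalarTower K (v.adicCompletion K) (w.adicCompletion F) := by
        refine IsScalarTower.of_algebraMap_eq fun x => ?_
        rw [IsScalarTower.algebraMap_apply K F (w.adicCompletion F)]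
        exact (hφ x).symm
      exact tkum_rst hr (hloc v) i
    · have := closed_compl (K := K) w
      exact locKum_closed (hd1 i) _
  have hcob : ∀ i, IsCobV 2 (E0 F) (d i) := by
    intro i
    have h1 := h1f_zero Nat.prime_two hF.fin 0 (fun k x hx => by
      rw [sha2 hF k x hx, smul_zero])
      (QuotientAddGroup.mk (⟨d i, hd i⟩ : selCocV 2 (E0 F)))
    have h2 := (QuotientAddGroup.eq_zero_iff _).1 h1
    rw [AddSubgroup.mem_addSubgroupOf] at h2
    exact h2
  choose y hy1 hy2 using hcob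
  choose x hx using fun i n => surj (y i n)
  have hxV : ∀ i, IsV 2 (E0 K) (x i) := by
    intro i n
    obtain ⟨h1, M, h2⟩ := hy1 i n
    refine ⟨?_, M, ?_⟩
    · apply sub_eq_zero.1
      apply inj
      rw [hTs, hTn, hx, hx, h1, sub_self]
    · apply inj
      rw [hTn, hx, h2]
  refine ⟨x, hxV, ?_⟩
  -- the difference
  have hN : ∀ (σ : Gal F) i n, c (res e σ) i n =
      act (E0 K) (res e σ).toAlgHom (x i n) - x i n := by
    intro σ i n
    apply sub_eq_zero.1
    apply inj
    rw [hTs, hTs, hTact, hx]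
    exact sub_eq_zero.2 (hy2 i σ n)
  intro t g hg i n
  obtain ⟨S, hS⟩ : ∃ S, S = ∑ k, R g i k • act (E0 K) t.toAlgHom (x k n) := ⟨_, rfl⟩
  rw [← hS]
  have key : ∀ σ : Gal F, act (E0 K) (res e σ).toAlgHom (c t i n - (S - x i n)) =
      c t i n - (S - x i n) := by
    intro σ
    obtain ⟨σ', hσ'⟩ := conj_ex e σ t
    have a := hc.mul (res e σ) t 1 (hr σ) i n
    have b := hc.mul t (res e σ') g hg i n
    have b2 : ∑ k, R g i k • act (E0 K) t.toAlgHom (c (res e σ') k n) =
        act (E0 K) (res e σ).toAlgHom S - S := by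
      rw [hS, map_sum, ← Finset.sum_sub_distrib]
      refine Finset.sum_congr rfl fun k _ => ?_
      rw [hN, map_sub, smul_sub, map_zsmul, act_act, act_act]
      have e5 : t.toAlgHom.comp (res e σ').toAlgHom = (res e σ).toAlgHom.comp t.toAlgHom :=
        congrArg AlgEquiv.toAlgHom hσ'.symm
      rw [e5]
    rw [hσ', b, b2, map_one, sum_one, hN σ] at a
    rw [map_sub, map_sub]
    have e6 : act (E0 K) (res e σ).toAlgHom (c t i n) =
        c t i n + (act (E0 K) (res e σ).toAlgHom S - S) -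
          (act (E0 K) (res e σ).toAlgHom (x i n) - x i n) := by
      rw [a]
      abel
    rw [e6]
    abel
  obtain ⟨R0, hR0⟩ := fixpt (T (c t i n - (S - x i n))) (fun σ => by rw [← hTact, key])
  have hS2 : S ∈ pt2 (E0 K) := by
    rw [hS]
    exact sum_mem fun k _ => zsmul_mem (map_pt2 _ (hxV k n).2) _
  obtain ⟨M, hM⟩ : c t i n - (S - x i n) ∈ pt2 (E0 K) :=
    sub_mem (hc.tate t i n).2 (sub_mem hS2 (hxV i n).2)
  apply sub_eq_zero.1
  apply inj
  have h3 : (2 ^ M : ℕ) • R0 = 0 := by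
    apply act_inj (E0 F) (Algebra.ofId F (AlgebraicClosure F))
    rw [map_nsmul, hR0, ← hTn, hM, hT0, map_zero]
  rw [← hR0, tor2 hF.odd M R0 h3, map_zero]

end main

end Pool.Agent.H76.BKT
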