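import Pool.Agent.H76.BKT.Sel
import Pool.Agent.H76.BKT.Abs

/-!
# Torsors under the abelian varieties `E ⊗ R`

`K ⊆ F` is a Galois extension of number fields and `R` is an integral representation of `Gal(F/K)`.
If the 2-Selmer group of `E` over `F` and the 2-torsion of `E(F)` vanish, then an everywhere locally
soluble torsor under the abelian variety `E ⊗ R` over `K` has a closed point of odd degree.
-/

set_option autoImplicit false
set_option linter.unusedSectionVars false

open WeierstrassCurve IsDedekindDomain NumberField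
open scoped Classical

namespace Pool.Agent.H76.BKT

open Pool.Agent.Y696
open Pool.Agent.TH841.SH.D
open Pool.Agent.Y664.QA
open Pool.Agent.Y667.BKP
open Pool.Agent.K7.H70.ST

section defs
variable {K F : Type} [Field K] [Field F] [Algebra K F] {m : ℕ}

/-- continuous cocycles with values in the points of `E ⊗ R` -/
structure ACoc (j : F →ₐ[K] AlgebraicClosure K) (R : (F ≃ₐ[K] F) →* Matrix (Fin m) (Fin m) ℤ)
    (c : Gal K → Fin m → Pt (E0 K) (AlgebraicClosure K)) : Prop where
  cont : ∀ i, IsLocallyConstant fun σ => c σ i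
  mul : ∀ σ τ g, Res j σ g → ∀ i,
    c (σ * τ) i = c σ i + ∑ k, R g i k • act (E0 K) σ.toAlgHom (c τ k)

/-- the restriction to the absolute Galois group of `Kv` is a coboundary -/
def ALoc (j : F →ₐ[K] AlgebraicClosure K) (R : (F ≃ₐ[K] F) →* Matrix (Fin m) (Fin m) ℤ)
    (Kv : Type) [Field Kv] [Algebra K Kv]
    (c : Gal K → Fin m → Pt (E0 K) (AlgebraicClosure K)) : Prop :=
  ∀ ι : AlgebraicClosure K →ₐ[K] AlgebraicClosure Kv,
    ∃ Q : Fin m → Pt (E0 K) (AlgebraicClosure Kv),
    ∀ (τ : Gal Kv) (σ : Gal K), (∀ x, τ (ι x) = ι (σ x)) → ∀ g, Res j σ g → ∀ i,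
      act (E0 K) ι (c σ i) =
        ∑ k, R g i k • act (E0 K) (τ.toAlgHom.restrictScalars K) (Q k) - Q i

end defs

/-- the points over `F` are a finite group of odd order and the Tate–Shafarevich group has no
element of order two -/
structure Tr (F : Type) [Field F] [NumberField F] : Prop where
  fin : Finite (E0 F).toAffine.Point
  odd : Odd (Nat.card (E0 F).toAffine.Point)
  sha : ∀ x : Pool.Agent.TH841.NF.D.Sha (E0 F), x + x = 0 → x = 0

section sel
variable {F : Type} [Field F] [NumberField F]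

lemma tr_of_selV (h : SelV F) : Tr F := ⟨h.fin, h.odd, fun x hx => h.sha x hx⟩

omit [NumberField F] in
/-- halving of rational points -/
lemma halve_odd (hodd : Odd (Nat.card (E0 F).toAffine.Point)) (P : Pt (E0 F) F) :
    ∃ Q : Pt (E0 F) F, P = Q + Q := by
  let : AddCommGroup (E0 F).toAffine.Point :=
    @Affine.Point.instAddCommGroup F _ (E0 F).toAffine (Classical.decEq F)
  obtain ⟨Φ, -⟩ : ∃ Φ : Pt (E0 F) F ≃+ (E0 F).toAffine.Point, True := by
    obtain ⟨Φ, -⟩ := @tr_ex' F _ (Classical.decEq F) ((E0 F).baseChange F) (E0 F) (E0_map _)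
    exact ⟨Φ, trivial⟩
  obtain ⟨k, hk⟩ := hodd
  have h1 : Nat.card (E0 F).toAffine.Point • Φ P = 0 := card_nsmul_eq_zero'
  have h2 : Nat.card (E0 F).toAffine.Point • P = 0 := by
    apply Φ.injective
    rw [map_nsmul, h1, map_zero]
  refine ⟨(k + 1) • P, ?_⟩
  rw [← add_nsmul]
  have e1 : k + 1 + (k + 1) = Nat.card (E0 F).toAffine.Point + 1 := by omega
  rw [e1, add_nsmul, h2, one_nsmul, zero_add]

/-- the 2-Selmer group is zero -/
theorem Tr.sel (h : Tr F) (f : Coch (E0 F)) (hf : IsCoc (E0 F) f) (h2 : ∀ σ, f σ + f σ = 0)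
    (hfin : ∀ v : HeightOneSpectrum (𝓞 F), LocTriv (E0 F) (v.adicCompletion F) f)
    (hinf : ∀ v : InfinitePlace F, LocTriv (E0 F) v.Completion f) :
    ∃ T : Pt (E0 F) (AlgebraicClosure F), T + T = 0 ∧
      ∀ σ : Gal F, f σ = act (E0 F) σ.toAlgHom T - T := by
  have h1 : Pool.Agent.TH841.NF.D.IsShaCoc (E0 F) f := ⟨hf, hfin, hinf⟩
  obtain ⟨c, hc⟩ : ∃ c : Pool.Agent.TH841.NF.D.shaCoc (E0 F), c.1 = f := ⟨⟨f, h1⟩, rfl⟩
  have h3 : c + c = 0 := by
    apply Subtype.ext
    show c.1 + c.1 = 0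
    rw [hc]
    funext σ
    exact h2 σ
  have h4 := h.sha (QuotientAddGroup.mk c) (congrArg QuotientAddGroup.mk h3)
  have h5 := (QuotientAddGroup.eq_zero_iff c).1 h4
  rw [AddSubgroup.mem_addSubgroupOf] at h5
  obtain ⟨P, hP⟩ := h5
  rw [hc] at hP
  obtain ⟨R0, hR0⟩ := fixpt (P + P) (fun σ => by
    have e1 := h2 σ
    rw [hP σ] at e1
    rw [map_add]
    have e2 : act (E0 F) σ.toAlgHom P + act (E0 F) σ.toAlgHom P - (P + P) = 0 := by
      rw [← e1]
      abel
    exact sub_eq_zero.1 e2)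
  obtain ⟨Q, hQ⟩ := halve_odd h.odd R0
  obtain ⟨Q', hQ'⟩ : ∃ Q', Q' = act (E0 F) (Algebra.ofId F (AlgebraicClosure F)) Q := ⟨_, rfl⟩
  have hfix : ∀ σ : Gal F, act (E0 F) σ.toAlgHom Q' = Q' := by
    intro σ
    rw [hQ', act_act]
    congr 2
    exact AlgHom.ext fun x => σ.commutes x
  refine ⟨P - Q', ?_, fun σ => ?_⟩
  · have e3 : P + P = Q' + Q' := by rw [← hR0, hQ, map_add, hQ']
    have e4 : P - Q' + (P - Q') = P + P - (Q' + Q') := by abel
    rw [e4, e3, sub_self]
  · rw [map_sub, hfix, hP]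
    abel

end sel

section inf
variable {K F : Type} [Field K] [NumberField K] [Field F] [NumberField F] [Algebra K F]

open NumberField.LiesOver in
/-- the completions at the infinite places -/
theorem compl_inf' (w : InfinitePlace F) : ∃ (u : InfinitePlace K)
    (j : u.Completion →+* w.Completion),
    ∀ x : K, j (algebraMap K _ x) = algebraMap F _ (algebraMap K F x) := by
  let u : InfinitePlace K := w.comap (algebraMap K F)
  have : w.LiesOver u := ⟨rfl⟩
  refine ⟨u, completionMap, fun x => ?_⟩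
  have h1 : algebraMap K w.Completion x = completionMap (algebraMap K u.Completion x) :=
    IsScalarTower.algebraMap_apply K u.Completion w.Completion x
  have h2 : algebraMap K w.Completion x = algebraMap F w.Completion (algebraMap K F x) := by
    apply InfinitePlace.Completion.ext
    rw [InfinitePlace.Completion.algebraMap_toCompletion,
      InfinitePlace.Completion.algebraMap_toCompletion]
    exact IsScalarTower.algebraMap_apply K F w.1.Completion x
  rw [← h1, h2]

end inf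

section main
variable {K F : Type} [Field K] [NumberField K] [Field F] [NumberField F] [Algebra K F] {m : ℕ}
  {j : F →ₐ[K] AlgebraicClosure K} {R : (F ≃ₐ[K] F) →* Matrix (Fin m) (Fin m) ℤ}
  {c : Gal K → Fin m → Pt (E0 K) (AlgebraicClosure K)}

/-- the restriction of a locally trivial cocycle -/
lemma aloc_rst {e : AlgebraicClosure K ≃ₐ[K] AlgebraicClosure F}
    (hr : ∀ σ : Gal F, Res j (res e σ) 1) {Kv L : Type} [Field Kv] [Field L] [Algebra K Kv]
    [Algebra K L] [Algebra Kv L] [IsScalarTower K Kv L] [Algebra F L] [IsScalarTower K F L]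
    (h : ALoc j R Kv c) (i : Fin m) :
    LocTriv (E0 F) L (fun σ => tr K F (AlgebraicClosure F)
      (act (E0 K) (e : _ →ₐ[K] _) (c (res e σ) i)) : Coch (E0 F)) := by
  intro ι
  let θ : AlgebraicClosure Kv →ₐ[Kv] AlgebraicClosure L := IsAlgClosed.lift
  let ι' : AlgebraicClosure K →ₐ[K] AlgebraicClosure L :=
    (ι.restrictScalars K).comp (e : _ →ₐ[K] _)
  obtain ⟨ι₀, hι₀⟩ := factor (θ.restrictScalars K) ι'
  obtain ⟨Q, hQ2⟩ := h ι₀
  refine ⟨tr K F (AlgebraicClosure L) (act (E0 K) (θ.restrictScalars K) (Q i)),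
    fun τ σ hτ => ?_⟩
  obtain ⟨t, ht⟩ := factor θ ((τ.toAlgHom.restrictScalars Kv).comp θ)
  let τ₀ : Gal Kv := AlgEquiv.ofBijective t (Algebra.IsAlgebraic.algHom_bijective t)
  have hτ₀ : ∀ y, θ (τ₀ y) = τ (θ y) := ht
  have h1 := hQ2 τ₀ (res e σ) (fun x => by
    apply θ.injective
    change θ (τ₀ (ι₀ x)) = θ (ι₀ (res e σ x))
    rw [hτ₀]
    have e1 : θ (ι₀ x) = ι' x := hι₀ x
    have e2 : θ (ι₀ (res e σ x)) = ι' (res e σ x) := hι₀ _
    rw [e1, e2]
    change τ (ι (e x)) = ι (e (res e σ x))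
    rw [res_apply, hτ]) 1 (hr σ) i
  rw [map_one, sum_one] at h1
  have e3 : ι' = (θ.restrictScalars K).comp ι₀ := AlgHom.ext fun x => (hι₀ x).symm
  show act (E0 F) ι (tr K F (AlgebraicClosure F)
    (act (E0 K) (e : _ →ₐ[K] _) (c (res e σ) i))) = _
  rw [← tr_act (k := K) (K := F) (ι.restrictScalars K) ι (fun _ => rfl), act_act]
  change tr K F (AlgebraicClosure L) (act (E0 K) ι' (c (res e σ) i)) = _
  rw [e3, ← act_act, h1, map_sub, map_sub, act_act]
  congr 1
  rw [← tr_act (k := K) (K := F) (τ.toAlgHom.restrictScalars K) (τ.toAlgHom.restrictScalars F)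
    (fun _ => rfl), act_act]
  congr 2
  congr 1
  exact AlgHom.ext fun x => hτ₀ x

/-- the boundary of a point -/
noncomputable def bd (R : (F ≃ₐ[K] F) →* Matrix (Fin m) (Fin m) ℤ) (σ : Gal K) (g : F ≃ₐ[K] F)
    (x : Fin m → Pt (E0 K) (AlgebraicClosure K)) (i : Fin m) : Pt (E0 K) (AlgebraicClosure K) :=
  ∑ k, R g i k • act (E0 K) σ.toAlgHom (x k) - x i

/-- **Descent.** -/
theorem desc_tw [IsGalois K F] (hodd : Odd (Nat.card (E0 F).toAffine.Point))
    {e : AlgebraicClosure K ≃ₐ[K] AlgebraicClosure F} (hr : ∀ σ : Gal F, Res j (res e σ) 1)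
    (hmul : ∀ σ τ g, Res j σ g → ∀ i,
      c (σ * τ) i = c σ i + ∑ k, R g i k • act (E0 K) σ.toAlgHom (c τ k))
    (htor : ∀ σ i, c σ i ∈ pt2 (E0 K)) {x : Fin m → Pt (E0 K) (AlgebraicClosure K)}
    (hx : ∀ i, x i ∈ pt2 (E0 K))
    (hN : ∀ (σ : Gal F) i, c (res e σ) i = act (E0 K) (res e σ).toAlgHom (x i) - x i)
    {t : Gal K} {g : F ≃ₐ[K] F} (hg : Res j t g) (i : Fin m) :
    c t i = ∑ k, R g i k • act (E0 K) t.toAlgHom (x k) - x i := by
  let T : Pt (E0 K) (AlgebraicClosure K) → Pt (E0 F) (AlgebraicClosure F) := fun P =>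
    tr K F (AlgebraicClosure F) (act (E0 K) (e : _ →ₐ[K] _) P)
  have hTn : ∀ (a : ℕ) P, T (a • P) = a • T P := fun a P => by
    show tr K F _ (act (E0 K) _ (a • P)) = _
    rw [map_nsmul, map_nsmul]
  have hT0 : T 0 = 0 := by
    show tr K F _ (act (E0 K) _ 0) = _
    rw [map_zero, map_zero]
  have hTact : ∀ (σ : Gal F) P, T (act (E0 K) (res e σ).toAlgHom P) =
      act (E0 F) σ.toAlgHom (T P) := fun σ P => tr_act_res e σ P
  have inj : ∀ P, T P = 0 → P = 0 := by
    intro P hP
    apply act_inj (E0 K) (e : _ →ₐ[K] AlgebraicClosure F)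
    apply (tr K F (AlgebraicClosure F)).injective
    rw [map_zero, map_zero]
    exact hP
  obtain ⟨S, hS⟩ : ∃ S, S = ∑ k, R g i k • act (E0 K) t.toAlgHom (x k) := ⟨_, rfl⟩
  rw [← hS]
  have key : ∀ σ : Gal F, act (E0 K) (res e σ).toAlgHom (c t i - (S - x i)) =
      c t i - (S - x i) := by
    intro σ
    obtain ⟨σ', hσ'⟩ := conj_ex e σ t
    have a := hmul (res e σ) t 1 (hr σ) i
    have b := hmul t (res e σ') g hg i
    have b2 : ∑ k, R g i k • act (E0 K) t.toAlgHom (c (res e σ') k) =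
        act (E0 K) (res e σ).toAlgHom S - S := by
      rw [hS, map_sum, ← Finset.sum_sub_distrib]
      refine Finset.sum_congr rfl fun k _ => ?_
      rw [hN, map_sub, smul_sub, map_zsmul, act_act, act_act]
      have e5 : t.toAlgHom.comp (res e σ').toAlgHom = (res e σ).toAlgHom.comp t.toAlgHom :=
        congrArg AlgEquiv.toAlgHom hσ'.symm
      rw [e5]
    rw [hσ', b, b2, map_one, sum_one, hN σ] at a
    rw [map_sub, map_sub]
    have e6 : act (E0 K) (res e σ).toAlgHom (c t i) =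
        c t i + (act (E0 K) (res e σ).toAlgHom S - S) -
          (act (E0 K) (res e σ).toAlgHom (x i) - x i) := by
      rw [a]
      abel
    rw [e6]
    abel
  obtain ⟨R0, hR0⟩ := fixpt (T (c t i - (S - x i))) (fun σ => by rw [← hTact, key])
  have hS2 : S ∈ pt2 (E0 K) := by
    rw [hS]
    exact sum_mem fun k _ => zsmul_mem (map_pt2 _ (hx k)) _
  obtain ⟨M, hM⟩ : c t i - (S - x i) ∈ pt2 (E0 K) :=
    sub_mem (htor t i) (sub_mem hS2 (hx i))
  apply sub_eq_zero.1
  apply inj
  have h3 : (2 ^ M : ℕ) • R0 = 0 := by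
    apply act_inj (E0 F) (Algebra.ofId F (AlgebraicClosure F))
    rw [map_nsmul, hR0, ← hTn, hM, hT0, map_zero]
  rw [← hR0, tor2 hodd M R0 h3, map_zero]

/-- **The Tate–Shafarevich group of `E ⊗ R` has no 2-torsion.** -/
theorem sha_tw [IsGalois K F] (hF : Tr F) (hc : ACoc j R c)
    (hloc : ∀ v : HeightOneSpectrum (𝓞 K), ALoc j R (v.adicCompletion K) c)
    (hinf : ∀ v : InfinitePlace K, ALoc j R v.Completion c)
    (hrg : ∀ σ : Gal K, ∃ g, Res j σ g)
    {b : Fin m → Pt (E0 K) (AlgebraicClosure K)}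
    (h2 : ∀ σ g, Res j σ g → ∀ i, c σ i + c σ i = bd R σ g b i) :
    ∃ x : Fin m → Pt (E0 K) (AlgebraicClosure K), ∀ σ g, Res j σ g → ∀ i,
        c σ i = bd R σ g x i := by
  obtain ⟨e, he⟩ := exists_e j
  have hr : ∀ σ : Gal F, Res j (res e σ) 1 := by
    intro σ x
    apply e.injective
    rw [res_apply, he, σ.commutes, AlgEquiv.one_apply, he]
  choose b' hb' using fun i => halve0 (b i)
  choose rg hrg using hrg
  have uniq : ∀ σ g, Res j σ g → g = rg σ := by
    intro σ g hg
    apply AlgEquiv.ext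
    intro x
    apply j.toRingHom.injective
    show j (g x) = j (rg σ x)
    rw [← hg x, ← hrg σ x]
  -- the cocycle of 2-torsion points
  let f : Gal K → Fin m → Pt (E0 K) (AlgebraicClosure K) := fun σ i => c σ i - bd R σ (rg σ) b' i
  have hbd2 : ∀ σ g i, bd R σ g b' i + bd R σ g b' i = bd R σ g b i := by
    intro σ g i
    unfold bd
    have e1 : ∑ k, R g i k • act (E0 K) σ.toAlgHom (b k) =
        ∑ k, R g i k • act (E0 K) σ.toAlgHom (b' k) +
          ∑ k, R g i k • act (E0 K) σ.toAlgHom (b' k) := by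
      rw [← Finset.sum_add_distrib]
      refine Finset.sum_congr rfl fun k _ => ?_
      rw [hb' k, map_add, smul_add]
    rw [e1, hb' i]
    abel
  have hf2 : ∀ σ i, f σ i + f σ i = 0 := by
    intro σ i
    show c σ i - bd R σ (rg σ) b' i + (c σ i - bd R σ (rg σ) b' i) = 0
    have e1 := h2 σ (rg σ) (hrg σ) i
    rw [← hbd2] at e1
    rw [sub_add_sub_comm, e1, sub_self]
  have hrm : ∀ σ τ, rg (σ * τ) = rg σ * rg τ := by
    intro σ τ
    symm
    apply uniq
    intro x
    show (σ * τ) (j x) = j ((rg σ * rg τ) x)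
    rw [AlgEquiv.mul_apply, hrg τ x, hrg σ, AlgEquiv.mul_apply]
  have hbm : ∀ σ τ i, bd R (σ * τ) (rg (σ * τ)) b' i = bd R σ (rg σ) b' i +
      ∑ k, R (rg σ) i k • act (E0 K) σ.toAlgHom (bd R τ (rg τ) b' k) := by
    intro σ τ i
    have e1 : ∑ k, R (rg (σ * τ)) i k • act (E0 K) (σ * τ).toAlgHom (b' k) =
        ∑ l, R (rg σ) i l • act (E0 K) σ.toAlgHom
          (∑ k, R (rg τ) l k • act (E0 K) τ.toAlgHom (b' k)) := by
      have e2 : ∀ k, act (E0 K) (σ * τ).toAlgHom (b' k) =
          act (E0 K) σ.toAlgHom (act (E0 K) τ.toAlgHom (b' k)) := by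
        intro k
        rw [act_act]
        rfl
      simp only [map_sum, map_zsmul, Finset.smul_sum, hrm, map_mul, Matrix.mul_apply,
        Finset.sum_smul, e2, mul_smul]
      rw [Finset.sum_comm]
    have e3 : ∑ k, R (rg σ) i k • act (E0 K) σ.toAlgHom (bd R τ (rg τ) b' k) =
        ∑ l, R (rg σ) i l • act (E0 K) σ.toAlgHom
          (∑ k, R (rg τ) l k • act (E0 K) τ.toAlgHom (b' k)) -
        ∑ k, R (rg σ) i k • act (E0 K) σ.toAlgHom (b' k) := by
      rw [← Finset.sum_sub_distrib]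
      refine Finset.sum_congr rfl fun k _ => ?_
      rw [← smul_sub, ← map_sub]
      rfl
    rw [e3, ← e1]
    unfold bd
    abel
  have hfm : ∀ σ τ g, Res j σ g → ∀ i,
      f (σ * τ) i = f σ i + ∑ k, R g i k • act (E0 K) σ.toAlgHom (f τ k) := by
    intro σ τ g hg i
    rw [uniq σ g hg]
    show c (σ * τ) i - bd R (σ * τ) (rg (σ * τ)) b' i = (c σ i - bd R σ (rg σ) b' i) +
      ∑ k, R (rg σ) i k • act (E0 K) σ.toAlgHom (c τ k - bd R τ (rg τ) b' k)
    rw [hc.mul σ τ _ (hrg σ), hbm]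
    simp only [map_sub, smul_sub, Finset.sum_sub_distrib]
    abel
  have hfl : ∀ (Kv : Type) [Field Kv] [Algebra K Kv], ALoc j R Kv c → ALoc j R Kv f := by
    intro Kv _ _ hloc ι
    obtain ⟨Q, hQ⟩ := hloc ι
    refine ⟨fun i => Q i - act (E0 K) ι (b' i), fun τ σ h g hg i => ?_⟩
    have h3 := hQ τ σ h g hg i
    have h4 : ∀ P : Pt (E0 K) (AlgebraicClosure K), act (E0 K) ι (act (E0 K) σ.toAlgHom P) =
        act (E0 K) (τ.toAlgHom.restrictScalars K) (act (E0 K) ι P) := by
      intro P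
      rw [act_act, act_act]
      congr 2
      ext z
      exact (h z).symm
    have h5 : act (E0 K) ι (bd R σ (rg σ) b' i) =
        ∑ k, R g i k • act (E0 K) (τ.toAlgHom.restrictScalars K) (act (E0 K) ι (b' k)) -
          act (E0 K) ι (b' i) := by
      unfold bd
      rw [← uniq σ g hg, map_sub, map_sum]
      congr 1
      refine Finset.sum_congr rfl fun k _ => ?_
      rw [map_zsmul, h4]
    show act (E0 K) ι (c σ i - bd R σ (rg σ) b' i) = ∑ k, R g i k •
      act (E0 K) (τ.toAlgHom.restrictScalars K) (Q k - act (E0 K) ι (b' k)) -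
        (Q i - act (E0 K) ι (b' i))
    rw [map_sub, h3, h5]
    simp only [map_sub, smul_sub, Finset.sum_sub_distrib]
    abel
  -- the restriction to `F`
  let T : Pt (E0 K) (AlgebraicClosure K) → Pt (E0 F) (AlgebraicClosure F) := fun P =>
    tr K F (AlgebraicClosure F) (act (E0 K) (e : _ →ₐ[K] _) P)
  have hTadd : ∀ P Q, T (P + Q) = T P + T Q := fun P Q => by
    show tr K F _ (act (E0 K) _ (P + Q)) = _
    rw [map_add, map_add]
  have hTs : ∀ P Q, T (P - Q) = T P - T Q := fun P Q => by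
    show tr K F _ (act (E0 K) _ (P - Q)) = _
    rw [map_sub, map_sub]
  have hT0 : T 0 = 0 := by
    show tr K F _ (act (E0 K) _ 0) = _
    rw [map_zero, map_zero]
  have hTact : ∀ (σ : Gal F) P, T (act (E0 K) (res e σ).toAlgHom P) =
      act (E0 F) σ.toAlgHom (T P) := fun σ P => tr_act_res e σ P
  have inj : ∀ P, T P = 0 → P = 0 := by
    intro P hP
    apply act_inj (E0 K) (e : _ →ₐ[K] AlgebraicClosure F)
    apply (tr K F (AlgebraicClosure F)).injective
    rw [map_zero, map_zero]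
    exact hP
  have surj : ∀ P, ∃ P₀, T P₀ = P := by
    intro P
    refine ⟨act (E0 K) (e.symm : AlgebraicClosure F →ₐ[K] AlgebraicClosure K)
      ((tr K F (AlgebraicClosure F)).symm P), ?_⟩
    have e4 : ((e : AlgebraicClosure K →ₐ[K] AlgebraicClosure F)).comp
        (e.symm : AlgebraicClosure F →ₐ[K] AlgebraicClosure K) = AlgHom.id K _ :=
      AlgHom.ext fun x => e.apply_symm_apply x
    change tr K F (AlgebraicClosure F) (act (E0 K) (e : _ →ₐ[K] _)
      (act (E0 K) (e.symm : AlgebraicClosure F →ₐ[K] AlgebraicClosure K)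
        ((tr K F (AlgebraicClosure F)).symm P))) = P
    rw [act_act, e4, act_id, AddEquiv.apply_symm_apply]
  have hcoc : ∀ i, IsCoc (E0 F) (fun σ => T (f (res e σ) i) : Coch (E0 F)) := by
    intro i
    refine ⟨?_, fun σ τ => ?_⟩
    · have h3 : IsLocallyConstant fun σ : Gal F => c (res e σ) i :=
        (hc.cont i).comp_continuous (res_cont e)
      have h4 : IsLocallyConstant fun σ : Gal F =>
          act (E0 K) (res e σ).toAlgHom (b' i) - b' i :=
        (coc_of_pt (E0 K) (b' i)).1.comp_continuous (res_cont e)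
      have h5 := (h3.sub h4).comp T
      convert h5 using 2 with σ
      show T (c (res e σ) i - bd R (res e σ) (rg (res e σ)) b' i) = _
      rw [← uniq _ _ (hr σ)]
      unfold bd
      rw [map_one, sum_one]
      rfl
    · show T (f (res e (σ * τ)) i) = T (f (res e σ) i) + act (E0 F) σ.toAlgHom (T (f (res e τ) i))
      rw [res_mul, hfm _ _ 1 (hr σ), map_one, sum_one, hTadd, hTact]
  have hlt : ∀ i (w : HeightOneSpectrum (𝓞 F)), LocTriv (E0 F) (w.adicCompletion F)
      (fun σ => T (f (res e σ) i) : Coch (E0 F)) := by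
    intro i w
    obtain ⟨v, φ, hφ⟩ := compl_tower K F w
    let : Algebra (v.adicCompletion K) (w.adicCompletion F) := φ.toAlgebra
    have : IsScalarTower K (v.adicCompletion K) (w.adicCompletion F) := by
      refine IsScalarTower.of_algebraMap_eq fun x => ?_
      rw [IsScalarTower.algebraMap_apply K F (w.adicCompletion F)]
      exact (hφ x).symm
    exact aloc_rst hr (hfl _ (hloc v)) i
  have hlt' : ∀ i (w : InfinitePlace F), LocTriv (E0 F) w.Completion
      (fun σ => T (f (res e σ) i) : Coch (E0 F)) := by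
    intro i w
    obtain ⟨v, φ, hφ⟩ := compl_inf' (K := K) w
    let _ : Algebra K w.Completion := ((algebraMap F w.Completion).comp (algebraMap K F)).toAlgebra
    have : IsScalarTower K F w.Completion := IsScalarTower.of_algebraMap_eq fun x => rfl
    let : Algebra v.Completion w.Completion := φ.toAlgebra
    have : IsScalarTower K v.Completion w.Completion := by
      refine IsScalarTower.of_algebraMap_eq fun x => ?_
      exact (hφ x).symm
    exact aloc_rst hr (hfl _ (hinf v)) i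
  choose y hy2 hy using fun i => hF.sel _ (hcoc i) (fun σ => by
    show T (f (res e σ) i) + T (f (res e σ) i) = 0
    rw [← hTadd, hf2, hT0]) (hlt i) (hlt' i)
  choose x hx using fun i => surj (y i)
  have hx2 : ∀ i, x i ∈ pt2 (E0 K) := by
    intro i
    refine ⟨1, ?_⟩
    rw [pow_one, two_nsmul]
    apply inj
    rw [hTadd, hx, hy2]
  have hN : ∀ (σ : Gal F) i, f (res e σ) i = act (E0 K) (res e σ).toAlgHom (x i) - x i := by
    intro σ i
    apply sub_eq_zero.1
    apply inj
    rw [hTs (f (res e σ) i), hTs (act (E0 K) (res e σ).toAlgHom (x i)), hTact, hx]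
    exact sub_eq_zero.2 (hy i σ)
  refine ⟨fun i => x i + b' i, fun t g hg i => ?_⟩
  have h6 := desc_tw hF.odd hr hfm (fun σ i => ⟨1, by rw [pow_one, two_nsmul, hf2]⟩) hx2 hN hg i
  have h7 : c t i = f t i + bd R t (rg t) b' i := by
    show c t i = c t i - bd R t (rg t) b' i + bd R t (rg t) b' i
    rw [sub_add_cancel]
  rw [h7, h6, ← uniq t g hg]
  unfold bd
  simp only [map_add, smul_add, Finset.sum_add_distrib]
  abel

end main

section torsor
variable {K F : Type} [Field K] [NumberField K] [Field F] [NumberField F] [Algebra K F] {m : ℕ}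
  {j : F →ₐ[K] AlgebraicClosure K} {R : (F ≃ₐ[K] F) →* Matrix (Fin m) (Fin m) ℤ}

lemma exists_res [IsGalois K F] (j : F →ₐ[K] AlgebraicClosure K) (σ : Gal K) :
    ∃ g, Res j σ g := by
  let _ : Algebra F (AlgebraicClosure K) := j.toRingHom.toAlgebra
  have hst : IsScalarTower K F (AlgebraicClosure K) :=
    IsScalarTower.of_algebraMap_eq fun x => (j.commutes x).symm
  exact ⟨AlgEquiv.restrictNormal σ F, fun x => (AlgEquiv.restrictNormal_commutes σ F x).symm⟩

variable {X : Type} [AddTorsor (Fin m → Pt (E0 K) (AlgebraicClosure K)) X] [MulAction (Gal K) X]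

/-- **Torsors.** -/
theorem torsor_main [IsGalois K F] (hF : Tr F)
    (hX : ∀ σ g, Res j σ g → ∀ (a : Fin m → Pt (E0 K) (AlgebraicClosure K)) (x : X),
      σ • (a +ᵥ x) = (fun i => ∑ k, R g i k • act (E0 K) σ.toAlgHom (a k) :
        Fin m → Pt (E0 K) (AlgebraicClosure K)) +ᵥ σ • x)
    (ho : ∀ x : X, IsOpen {σ : Gal K | σ • x = x})
    (hloc : ∀ (v : HeightOneSpectrum (𝓞 K))
      (ι : AlgebraicClosure K →ₐ[K] AlgebraicClosure (v.adicCompletion K)),
      ∃ (x : X) (Q : Fin m → Pt (E0 K) (AlgebraicClosure (v.adicCompletion K))),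
        ∀ (τ : Gal (v.adicCompletion K)) (σ : Gal K), (∀ y, τ (ι y) = ι (σ y)) →
          ∀ g, Res j σ g → ∀ i, act (E0 K) ι ((σ • x -ᵥ x) i) =
            Q i - ∑ k, R g i k • act (E0 K) (τ.toAlgHom.restrictScalars K) (Q k))
    (hinf : ∀ (v : InfinitePlace K)
      (ι : AlgebraicClosure K →ₐ[K] AlgebraicClosure v.Completion),
      ∃ (x : X) (Q : Fin m → Pt (E0 K) (AlgebraicClosure v.Completion)),
        ∀ (τ : Gal v.Completion) (σ : Gal K), (∀ y, τ (ι y) = ι (σ y)) →
          ∀ g, Res j σ g → ∀ i, act (E0 K) ι ((σ • x -ᵥ x) i) =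
            Q i - ∑ k, R g i k • act (E0 K) (τ.toAlgHom.restrictScalars K) (Q k)) :
    (∃ x : X, Odd (MulAction.stabilizer (Gal K) x).index) ∧
      ∀ (t : ℕ) (x : Fin t → X) (n : Fin t → ℤ) (a : ℕ),
        ∑ i, n i * ((MulAction.stabilizer (Gal K) (x i)).index : ℤ) = 2 ^ a →
        ∃ y : X, ∀ σ : Gal K, σ • y = y := by
  choose rg hrg using exists_res (K := K) (F := F) j
  have uniq : ∀ σ g, Res j σ g → g = rg σ := by
    intro σ g hg
    apply AlgEquiv.ext
    intro x
    apply j.toRingHom.injective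
    show j (g x) = j (rg σ x)
    rw [← hg x, ← hrg σ x]
  let α : Gal K → (Fin m → Pt (E0 K) (AlgebraicClosure K)) →+
      (Fin m → Pt (E0 K) (AlgebraicClosure K)) := fun σ =>
    { toFun := fun a i => ∑ k, R (rg σ) i k • act (E0 K) σ.toAlgHom (a k)
      map_zero' := by
        funext i
        refine Finset.sum_eq_zero fun k _ => ?_
        rw [Pi.zero_apply, map_zero, smul_zero]
      map_add' := fun a b => by
        funext i
        rw [Pi.add_apply, ← Finset.sum_add_distrib]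
        refine Finset.sum_congr rfl fun k _ => ?_
        rw [Pi.add_apply, map_add, smul_add] }
  have hαa : ∀ σ a i, α σ a i = ∑ k, R (rg σ) i k • act (E0 K) σ.toAlgHom (a k) :=
    fun σ a i => rfl
  have hα : ∀ (σ : Gal K) (y x : X), α σ (y -ᵥ x) = σ • y -ᵥ σ • x := by
    intro σ y x
    have h1 := hX σ (rg σ) (hrg σ) (y -ᵥ x) x
    rw [vsub_vadd] at h1
    rw [h1, vadd_vsub]
    rfl
  have hfi : ∀ x : X, (MulAction.stabilizer (Gal K) x).FiniteIndex := by
    intro x
    have h1 := Subgroup.quotient_finite_of_isOpen (MulAction.stabilizer (Gal K) x) (ho x)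
    exact Subgroup.finiteIndex_of_finite_quotient
  -- the class of a multiple of the torsor
  have hS : ∀ (x : X) (n : ℕ), (∃ b, ∀ σ : Gal K, 2 • (n • (σ • x -ᵥ x)) = b - α σ b) →
      ∃ b, ∀ σ : Gal K, n • (σ • x -ᵥ x) = b - α σ b := by
    rintro x n ⟨b, hb⟩
    have hcc : ∀ σ τ : Gal K, (σ * τ) • x -ᵥ x = (σ • x -ᵥ x) + α σ (τ • x -ᵥ x) := by
      intro σ τ
      rw [hα, mul_smul, add_comm, vsub_add_vsub_cancel]
    have hc : ACoc j R (fun σ => n • (σ • x -ᵥ x)) := by
      refine ⟨fun i => ?_, fun σ τ g hg i => ?_⟩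
      · rw [IsLocallyConstant.iff_exists_open]
        intro σ
        refine ⟨(fun τ => σ⁻¹ * τ) ⁻¹' {τ : Gal K | τ • x = x}, (ho x).preimage
          (continuous_const.mul continuous_id), ?_, fun τ hτ => ?_⟩
        · show (σ⁻¹ * σ) • x = x
          rw [inv_mul_cancel, one_smul]
        · have h1 : (σ⁻¹ * τ) • x = x := hτ
          rw [mul_smul, inv_smul_eq_iff] at h1
          show (n • (τ • x -ᵥ x)) i = (n • (σ • x -ᵥ x)) i
          rw [h1]
      · rw [uniq σ g hg]
        show (n • ((σ * τ) • x -ᵥ x)) i = (n • (σ • x -ᵥ x)) i + α σ (n • (τ • x -ᵥ x)) i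
        rw [hcc, smul_add, map_nsmul]
        rfl
    have hl : ∀ (Kv : Type) [Field Kv] [Algebra K Kv],
        (∀ (ι : AlgebraicClosure K →ₐ[K] AlgebraicClosure Kv),
          ∃ (x : X) (Q : Fin m → Pt (E0 K) (AlgebraicClosure Kv)),
          ∀ (τ : Gal Kv) (σ : Gal K), (∀ y, τ (ι y) = ι (σ y)) →
          ∀ g, Res j σ g → ∀ i, act (E0 K) ι ((σ • x -ᵥ x) i) =
            Q i - ∑ k, R g i k • act (E0 K) (τ.toAlgHom.restrictScalars K) (Q k)) →
        ALoc j R Kv (fun σ => n • (σ • x -ᵥ x)) := by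
      intro Kv _ _ hloc ι
      obtain ⟨x', Q, hQ⟩ := hloc ι
      refine ⟨fun i => n • (act (E0 K) ι ((x -ᵥ x') i) - Q i), fun τ σ h g hg i => ?_⟩
      have h3 := hQ τ σ h g hg i
      have h4 : ∀ P : Pt (E0 K) (AlgebraicClosure K), act (E0 K) ι (act (E0 K) σ.toAlgHom P) =
          act (E0 K) (τ.toAlgHom.restrictScalars K) (act (E0 K) ι P) := by
        intro P
        rw [act_act, act_act]
        congr 2
        ext z
        exact (h z).symm
      have h5 : σ • x -ᵥ x = α σ (x -ᵥ x') - (x -ᵥ x') + (σ • x' -ᵥ x') := by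
        have e1 : σ • x -ᵥ x = (σ • x -ᵥ σ • x') + (σ • x' -ᵥ x') + (x' -ᵥ x) := by
          rw [vsub_add_vsub_cancel, vsub_add_vsub_cancel]
        rw [e1, hα, ← neg_vsub_eq_vsub_rev x x']
        abel
      have h6 : act (E0 K) ι (α σ (x -ᵥ x') i) = ∑ k, R g i k •
          act (E0 K) (τ.toAlgHom.restrictScalars K) (act (E0 K) ι ((x -ᵥ x') k)) := by
        rw [hαa, map_sum, ← uniq σ g hg]
        refine Finset.sum_congr rfl fun k _ => ?_
        rw [map_zsmul, h4]
      have h7 : act (E0 K) ι ((σ • x -ᵥ x) i) = ∑ k, R g i k •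
          act (E0 K) (τ.toAlgHom.restrictScalars K) (act (E0 K) ι ((x -ᵥ x') k) - Q k) -
            (act (E0 K) ι ((x -ᵥ x') i) - Q i) := by
        rw [h5]
        show act (E0 K) ι (α σ (x -ᵥ x') i - (x -ᵥ x') i + (σ • x' -ᵥ x') i) = _
        rw [map_add, map_sub, h6, h3]
        simp only [map_sub, smul_sub, Finset.sum_sub_distrib]
        abel
      show act (E0 K) ι (n • (σ • x -ᵥ x) i) = _
      rw [map_nsmul, h7, smul_sub, Finset.smul_sum]
      congr 1
      refine Finset.sum_congr rfl fun k _ => ?_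
      rw [map_nsmul, smul_comm]
    obtain ⟨y, hy⟩ := sha_tw hF hc (fun v => hl _ (hloc v)) (fun v => hl _ (hinf v))
      (exists_res j) (b := -b) (fun σ g hg i => by
      rw [uniq σ g hg]
      show (n • (σ • x -ᵥ x)) i + (n • (σ • x -ᵥ x)) i = α σ (-b) i - (-b) i
      have h1 := congrFun (hb σ) i
      rw [two_nsmul] at h1
      have h2 : (n • (σ • x -ᵥ x)) i + (n • (σ • x -ᵥ x)) i = b i - α σ b i := h1
      rw [h2, map_neg]
      show b i - α σ b i = -(α σ b i) - -(b i)
      abel)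
    refine ⟨-y, fun σ => ?_⟩
    funext i
    have h1 : (n • (σ • x -ᵥ x)) i = α σ y i - y i := hy σ (rg σ) (hrg σ) i
    rw [h1, map_neg]
    show α σ y i - y i = -(y i) - -(α σ y i)
    abel
  obtain ⟨x0⟩ : Nonempty X := AddTorsor.nonempty
  exact ⟨odd_degree hα hfi x0 (hS x0),
    fun t x n a ha => two_power_zc hα hfi x0 (hS x0) x n ha⟩

end torsor

end Pool.Agent.H76.BKT
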