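import Pool.Agent.H76.BKT.Tors

/-!
# Local zero-cycles of degree one on torsors under `E ⊗ R`
-/

set_option autoImplicit false
set_option linter.unusedSectionVars false

open WeierstrassCurve IsDedekindDomain NumberField
open scoped Classical

namespace Pool.Agent.H76.BKT

open Pool.Agent.Y696
open Pool.Agent.TH841.SH.D
open Pool.Agent.Y664.QA

section
variable {K F : Type} [Field K] [NumberField K] [Field F] [NumberField F] [Algebra K F] {m : ℕ}
  {j : F →ₐ[K] AlgebraicClosure K} {R : (F ≃ₐ[K] F) →* Matrix (Fin m) (Fin m) ℤ}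
  {X : Type} [AddTorsor (Fin m → Pt (E0 K) (AlgebraicClosure K)) X] [MulAction (Gal K) X]
  {Kv : Type} [Field Kv] [Algebra K Kv]

/-- the orbit of the point `x + Q` -/
def orb (j : F →ₐ[K] AlgebraicClosure K) (R : (F ≃ₐ[K] F) →* Matrix (Fin m) (Fin m) ℤ)
    (ι : AlgebraicClosure K →ₐ[K] AlgebraicClosure Kv) (x : X)
    (Q : Fin m → Pt (E0 K) (AlgebraicClosure Kv)) :
    Set (Fin m → Pt (E0 K) (AlgebraicClosure Kv)) :=
  {Q' | ∃ (τ : Gal Kv) (σ : Gal K) (g : F ≃ₐ[K] F), (∀ y, τ (ι y) = ι (σ y)) ∧ Res j σ g ∧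
    ∀ i, Q' i = ∑ k, R g i k • act (E0 K) (τ.toAlgHom.restrictScalars K) (Q k) +
      act (E0 K) ι ((σ • x -ᵥ x) i)}

/-- **A local zero-cycle of degree one gives a local point.** -/
theorem loc_point [IsGalois K F]
    (hX : ∀ σ g, Res j σ g → ∀ (a : Fin m → Pt (E0 K) (AlgebraicClosure K)) (x : X),
      σ • (a +ᵥ x) = (fun i => ∑ k, R g i k • act (E0 K) σ.toAlgHom (a k) :
        Fin m → Pt (E0 K) (AlgebraicClosure K)) +ᵥ σ • x)
    (ι : AlgebraicClosure K →ₐ[K] AlgebraicClosure Kv) (x : X) {t : ℕ}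
    (Q : Fin t → Fin m → Pt (E0 K) (AlgebraicClosure Kv)) (n : Fin t → ℤ)
    (h : ∑ i, n i * ((orb j R ι x (Q i)).ncard : ℤ) = 1) :
    ∃ b : Fin m → Pt (E0 K) (AlgebraicClosure Kv),
      ∀ (τ : Gal Kv) (σ : Gal K), (∀ y, τ (ι y) = ι (σ y)) → ∀ g, Res j σ g → ∀ i,
        act (E0 K) ι ((σ • x -ᵥ x) i) =
          b i - ∑ k, R g i k • act (E0 K) (τ.toAlgHom.restrictScalars K) (b k) := by
  choose rg hrg using exists_res (K := K) (F := F) j
  have uniq : ∀ σ g, Res j σ g → g = rg σ := by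
    intro σ g hg
    apply AlgEquiv.ext
    intro x
    apply j.toRingHom.injective
    show j (g x) = j (rg σ x)
    rw [← hg x, ← hrg σ x]
  have hrm : ∀ σ τ, rg (σ * τ) = rg σ * rg τ := by
    intro σ τ
    symm
    apply uniq
    intro x
    show (σ * τ) (j x) = j ((rg σ * rg τ) x)
    rw [AlgEquiv.mul_apply, hrg τ x, hrg σ, AlgEquiv.mul_apply]
  have hr1 : rg 1 = 1 := (uniq 1 1 fun x => rfl).symm
  -- the restriction
  have hs : ∀ τ : Gal Kv, ∃ σ : Gal K, ∀ y, τ (ι y) = ι (σ y) := by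
    intro τ
    obtain ⟨ψ, hψ⟩ := factor ι ((τ.toAlgHom.restrictScalars K).comp ι)
    exact ⟨AlgEquiv.ofBijective ψ (Algebra.IsAlgebraic.algHom_bijective ψ), fun y => (hψ y).symm⟩
  choose s hs using hs
  have us : ∀ τ σ, (∀ y, τ (ι y) = ι (σ y)) → σ = s τ := by
    intro τ σ h
    apply AlgEquiv.ext
    intro y
    have h2 : ι (σ y) = ι (s τ y) := by rw [← h, ← hs]
    exact ι.injective h2
  have hsm : ∀ τ τ', s (τ * τ') = s τ * s τ' := by
    intro τ τ'
    symm
    apply us
    intro y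
    rw [AlgEquiv.mul_apply, hs τ' y, hs τ, AlgEquiv.mul_apply]
  have hs1 : s 1 = 1 := (us 1 1 fun y => rfl).symm
  -- the linear part
  let α : Gal Kv → (Fin m → Pt (E0 K) (AlgebraicClosure Kv)) →+
      (Fin m → Pt (E0 K) (AlgebraicClosure Kv)) := fun τ =>
    { toFun := fun a i => ∑ k, R (rg (s τ)) i k •
        act (E0 K) (τ.toAlgHom.restrictScalars K) (a k)
      map_zero' := by
        funext i
        refine Finset.sum_eq_zero fun k _ => ?_
        rw [Pi.zero_apply, map_zero, smul_zero]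
      map_add' := fun a b => by
        funext i
        rw [Pi.add_apply, ← Finset.sum_add_distrib]
        refine Finset.sum_congr rfl fun k _ => ?_
        rw [Pi.add_apply, map_add, smul_add] }
  let c : Gal Kv → (Fin m → Pt (E0 K) (AlgebraicClosure Kv)) := fun τ i =>
    act (E0 K) ι ((s τ • x -ᵥ x) i)
  have hα1 : ∀ a, α 1 a = a := by
    intro a
    funext i
    show ∑ k, R (rg (s 1)) i k • act (E0 K) ((1 : Gal Kv).toAlgHom.restrictScalars K) (a k) = a i
    rw [hs1, hr1, map_one]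
    have e1 : ∀ k, act (E0 K) ((1 : Gal Kv).toAlgHom.restrictScalars K) (a k) = a k :=
      fun k => act_id (E0 K) _
    simp only [e1]
    exact sum_one i a
  have hαm : ∀ τ τ' a, α (τ * τ') a = α τ (α τ' a) := by
    intro τ τ' a
    funext i
    show ∑ k, R (rg (s (τ * τ'))) i k •
        act (E0 K) ((τ * τ').toAlgHom.restrictScalars K) (a k) =
      ∑ l, R (rg (s τ)) i l • act (E0 K) (τ.toAlgHom.restrictScalars K)
        (∑ k, R (rg (s τ')) l k • act (E0 K) (τ'.toAlgHom.restrictScalars K) (a k))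
    have e2 : ∀ k, act (E0 K) ((τ * τ').toAlgHom.restrictScalars K) (a k) =
        act (E0 K) (τ.toAlgHom.restrictScalars K)
          (act (E0 K) (τ'.toAlgHom.restrictScalars K) (a k)) := by
      intro k
      rw [act_act]
      rfl
    simp only [map_sum, map_zsmul, Finset.smul_sum, hsm, hrm, map_mul, Matrix.mul_apply,
      Finset.sum_smul, e2, mul_smul]
    rw [Finset.sum_comm]
  have hX' : ∀ σ (y z : X) i, (σ • y -ᵥ σ • z) i =
      ∑ k, R (rg σ) i k • act (E0 K) σ.toAlgHom ((y -ᵥ z) k) := by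
    intro σ y z i
    have h1 := hX σ (rg σ) (hrg σ) (y -ᵥ z) z
    rw [vsub_vadd] at h1
    rw [h1, vadd_vsub]
  have hc1 : c 1 = 0 := by
    funext i
    show act (E0 K) ι ((s 1 • x -ᵥ x) i) = 0
    rw [hs1, one_smul, vsub_self]
    exact map_zero _
  have hcm : ∀ τ τ', c (τ * τ') = c τ + α τ (c τ') := by
    intro τ τ'
    funext i
    show act (E0 K) ι ((s (τ * τ') • x -ᵥ x) i) = act (E0 K) ι ((s τ • x -ᵥ x) i) +
      ∑ k, R (rg (s τ)) i k • act (E0 K) (τ.toAlgHom.restrictScalars K)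
        (act (E0 K) ι ((s τ' • x -ᵥ x) k))
    have e1 : s (τ * τ') • x -ᵥ x = (s τ • x -ᵥ x) + (s τ • (s τ' • x) -ᵥ s τ • x) := by
      rw [hsm, mul_smul, add_comm, vsub_add_vsub_cancel]
    have e2 : ∀ P : Pt (E0 K) (AlgebraicClosure K), act (E0 K) ι
        (act (E0 K) (s τ).toAlgHom P) =
        act (E0 K) (τ.toAlgHom.restrictScalars K) (act (E0 K) ι P) := by
      intro P
      rw [act_act, act_act]
      congr 2
      ext z
      exact (hs τ z).symm
    rw [e1, Pi.add_apply, map_add, hX', map_sum]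
    congr 1
    refine Finset.sum_congr rfl fun k _ => ?_
    rw [map_zsmul, e2]
  let _ : MulAction (Gal Kv) (Fin m → Pt (E0 K) (AlgebraicClosure Kv)) :=
    { smul := fun τ a => α τ a + c τ
      one_smul := fun a => by
        show α 1 a + c 1 = a
        rw [hα1, hc1, add_zero]
      mul_smul := fun τ τ' a => by
        show α (τ * τ') a + c (τ * τ') = α τ (α τ' a + c τ') + c τ
        rw [hαm, hcm, map_add]
        abel }
  have hsmul : ∀ (τ : Gal Kv) (a : Fin m → Pt (E0 K) (AlgebraicClosure Kv)),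
      τ • a = α τ a + c τ := fun τ a => rfl
  have horb : ∀ q, orb j R ι x q = MulAction.orbit (Gal Kv) q := by
    intro q
    ext q'
    constructor
    · rintro ⟨τ, σ, g, h1, h2, h3⟩
      refine ⟨τ, ?_⟩
      show τ • q = q'
      funext i
      rw [h3 i, uniq σ g h2, us τ σ h1]
      rfl
    · rintro ⟨τ, rfl⟩
      exact ⟨τ, s τ, rg (s τ), hs τ, hrg _, fun i => rfl⟩
  -- each orbit
  have key : ∀ i, ∃ b : Fin m → Pt (E0 K) (AlgebraicClosure Kv), ∀ τ : Gal Kv,
      (orb j R ι x (Q i)).ncard • c τ = b - α τ b := by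
    intro i
    rw [horb, ← MulAction.index_stabilizer]
    by_cases hfi : (MulAction.stabilizer (Gal Kv) (Q i)).index = 0
    · refine ⟨0, fun τ => ?_⟩
      rw [hfi, zero_smul, map_zero, sub_zero]
    have : (MulAction.stabilizer (Gal Kv) (Q i)).FiniteIndex := ⟨hfi⟩
    obtain ⟨b, hb⟩ := degree_kills (G := Gal Kv) (A := Fin m → Pt (E0 K) (AlgebraicClosure Kv))
      (X := Fin m → Pt (E0 K) (AlgebraicClosure Kv)) (α := α) (fun τ y z => by
        rw [hsmul, hsmul, vsub_eq_sub, vsub_eq_sub, add_sub_add_right_eq_sub, map_sub]) (Q i)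
    refine ⟨b + (MulAction.stabilizer (Gal Kv) (Q i)).index • Q i, fun τ => ?_⟩
    have h1 := hb τ
    rw [hsmul, vsub_eq_sub] at h1
    rw [map_add, map_nsmul]
    have h2 : (MulAction.stabilizer (Gal Kv) (Q i)).index • c τ =
        (MulAction.stabilizer (Gal Kv) (Q i)).index • (α τ (Q i) + c τ - Q i) -
          (MulAction.stabilizer (Gal Kv) (Q i)).index • α τ (Q i) +
          (MulAction.stabilizer (Gal Kv) (Q i)).index • Q i := by
      rw [← smul_sub, ← smul_add]
      congr 1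
      abel
    rw [h2, h1]
    abel
  choose b hb using key
  refine ⟨∑ i, n i • b i, fun τ σ h1 g h2 i => ?_⟩
  have h3 : c τ = (∑ i, n i • b i) - α τ (∑ i, n i • b i) := by
    have h4 : c τ = (∑ i, n i * ((orb j R ι x (Q i)).ncard : ℤ)) • c τ := by
      rw [h, one_smul]
    rw [h4, Finset.sum_smul, map_sum, ← Finset.sum_sub_distrib]
    refine Finset.sum_congr rfl fun i _ => ?_
    rw [mul_smul, natCast_zsmul, hb, map_zsmul, smul_sub]
  have h4 := congrFun h3 i
  rw [uniq σ g h2, us τ σ h1]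
  exact h4

end

end Pool.Agent.H76.BKT
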