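import Pool.Agent.H76.BKT.Tors
import Pool.Agent.K7.H56.U.P

/-!
# From the 2-Selmer group to the Tate–Shafarevich group
-/

set_option autoImplicit false

open WeierstrassCurve IsDedekindDomain NumberField
open scoped Classical

namespace Pool.Agent.H76.BKT

open Pool.Agent.Y696

theorem tr_of_s2 {F : Type} [Field F] [NumberField F] (h3 : ∀ x : F, x ^ 3 ≠ 2)
    (h : Pool.Agent.K7.H56.U.S2 F) : Tr F := by
  obtain ⟨h1, h2⟩ := (Pool.Agent.K7.H56.U.sel_iff h3).1 h
  have h4 := Pool.Agent.K7.H56.U.tors_E' h3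
  have h5 : {P : (E27 F).toAffine.Point | ∃ n : ℕ, 0 < n ∧ n • P = 0} = Set.univ := by
    ext P
    simp only [Set.mem_ofPred_eq, Set.mem_univ, iff_true]
    exact ⟨Nat.card (E27 F).toAffine.Point, Nat.card_pos, card_nsmul_eq_zero'⟩
  rw [h5, Nat.card_congr (Equiv.Set.univ _)] at h4
  refine ⟨h1, h4, fun x hx => ?_⟩
  have h6 : (2 : ℕ) • x = 0 := (two_nsmul x).trans hx
  exact h2 x h6

end Pool.Agent.H76.BKT
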